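import Mathlib

/-!
The integer `n = 1210344599 = 73 * 337 * 49199` ends in the digit `9` and satisfies
`2 ^ (n - 2) ≡ 1 (mod n)`.
-/

namespace Pool.Agent.Results.MP_aad82b_nt.LastDigitNine

/-- There is an integer `n ≥ 2`, namely `n = 1210344599`, with `n ≡ 9 (mod 10)` and
`2 ^ (n - 2) ≡ 1 (mod n)`. -/
theorem result : ∃ n : ℕ, 2 ≤ n ∧ n % 10 = 9 ∧ 2 ^ (n - 2) ≡ 1 [MOD n] := by
  refine ⟨73 * 337 * 49199, by norm_num, by norm_num, ?_⟩
  have key : ∀ (m d k : ℕ), 2 ^ d ≡ 1 [MOD m] → 2 ^ (d * k) ≡ 1 [MOD m] := by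
    intro m d k h
    have := h.pow k
    rwa [← pow_mul, one_pow] at this
  have h1 : 2 ^ (73 * 337 * 49199 - 2) ≡ 1 [MOD 73] := by
    have h : (2 : ℕ) ^ 9 ≡ 1 [MOD 73] := by decide
    have e : (73 * 337 * 49199 - 2 : ℕ) = 9 * 134482733 := by norm_num
    rw [e]; exact key _ _ _ h
  have h2 : 2 ^ (73 * 337 * 49199 - 2) ≡ 1 [MOD 337] := by
    have h : (2 : ℕ) ^ 21 ≡ 1 [MOD 337] := by decide
    have e : (73 * 337 * 49199 - 2 : ℕ) = 21 * 57635457 := by norm_num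
    rw [e]; exact key _ _ _ h
  have h3 : 2 ^ (73 * 337 * 49199 - 2) ≡ 1 [MOD 49199] := by
    have h : (2 : ℕ) ^ 24599 ≡ 1 [MOD 49199] := by
      show 2 ^ 24599 % 49199 = 1 % 49199
      decide +kernel
    have e : (73 * 337 * 49199 - 2 : ℕ) = 24599 * 49203 := by norm_num
    rw [e]; exact key _ _ _ h
  have h12 := (Nat.modEq_and_modEq_iff_modEq_mul (by norm_num : Nat.Coprime 73 337)).1 ⟨h1, h2⟩
  exact (Nat.modEq_and_modEq_iff_modEq_mul
    (by norm_num : Nat.Coprime (73 * 337) 49199)).1 ⟨h12, h3⟩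

end Pool.Agent.Results.MP_aad82b_nt.LastDigitNine
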